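import Pool.Agent.helper81.UH.Spec

/-!
Project uh, row `LIN` (MP_a2a22c_al): the matrices `U1 N X y (t w)` are in `A` for `t ∈ D ℤ`.
-/

set_option autoImplicit false

namespace Pool.Agent.UH

open Matrix Pool.Agent.H48SL Pool.Agent.UG

theorem LIN_mem {n : ℕ} (𝔞 : Submodule ℚ (MQ (n + 1))) (X : Fin n → MQ (n + 1)) (hX : ∀ j, X j ∈ 𝔞)
    (y v : Fin (n + 1) → ℚ) : AA X y v ∈ 𝔞 :=
  Submodule.sum_mem _ fun j _ => 𝔞.smul_mem _ (hX j)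

theorem LIN_step (hPCU : PCU_stmt) (hUPC : UPC_stmt) {n N : ℕ} (A : Subgroup (SLZ (n + 1)))
    (𝔞 : Submodule ℚ (MQ (n + 1))) (X : Fin n → MQ (n + 1)) (y w : Fin (n + 1) → ℚ) (hA : LA A 𝔞 N)
    (hX : ∀ j, X j ∈ 𝔞) (i : ℕ) :
    ∃ D : ℕ, 1 ≤ D ∧ ∀ t : ℤ, ∃ a ∈ A, qg a = (UPS N X y (((D : ℚ) * t) • w) i).1 := by
  induction i with
  | zero => exact ⟨1, le_refl _, fun t => ⟨1, A.one_mem, qg_one⟩⟩
  | succ i ih =>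
    obtain ⟨D, hD, hD'⟩ := ih
    obtain ⟨-, -, h3, h4⟩ := hPCU n N 𝔞 X y w hA.nn hX i
    obtain ⟨E, hE, hE'⟩ := hUPC (n + 1) N A 𝔞 hA _ h3 (fun t => LIN_mem 𝔞 X hX y _) h4
    refine ⟨D * E, Nat.mul_pos hD hE, fun t => ?_⟩
    obtain ⟨a, ha, haq⟩ := hD' ((E : ℤ) * t)
    obtain ⟨b, hb, hbq⟩ := hE' ((D : ℤ) * t)
    have e1 : (D : ℚ) * ((((E : ℤ) * t : ℤ)) : ℚ) = ((D * E : ℕ) : ℚ) * (t : ℚ) := by push_cast; ring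
    have e2 : (E : ℚ) * ((((D : ℤ) * t : ℤ)) : ℚ) = ((D * E : ℕ) : ℚ) * (t : ℚ) := by push_cast; ring
    rw [e1] at haq
    rw [e2] at hbq
    exact ⟨a * b, A.mul_mem ha hb, by rw [qg_mul, haq, hbq]; rfl⟩

theorem LIN (hPCU : PCU_stmt) (hUPC : UPC_stmt) (hEXF : EXF_stmt) (hFLG : FLG_stmt) : LIN_stmt := by
  intro n N A 𝔞 X y w hA hX
  exact LIN_step hPCU hUPC A 𝔞 X y w hA hX N

end Pool.Agent.UH
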